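import Pool.Agent.Helper264.NT.NearK
import Pool.Agent.Y124.App
import Pool.Agent.Y771.RP.Ferm

/-!
# Products of gamma values at rational points close to almost every point

Let `ρ_1, …, ρ_m` be positive real (for instance rational) numbers such that no `ρ_i` and no `ρ_i - ρ_k` (`i ≠ k`) is an
integer, and let `B(x, ρ) = Γ(x) Γ(ρ) / Γ(x + ρ)`. There is a subset `E` of `ℝ ^ n` of Hausdorff dimension at most `n - 1`, so
of measure zero (and of dimension zero for `n = 1`), such that for ALL points `z` outside of `E` with positive coordinates, for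
all number fields `K` in `ℝ`, all `d`, `A` and all `w > 0` (arbitrarily small) there are `R`, `T₀` with the following property.
For all `T ≥ T₀` and ALL `n`-tuples `q` in `K ^ n` (for instance, rational `q`) with heights at most `T` and with
`|q_j - z_j| ≤ T ^ (-w)` the `m n + 1` numbers `B(q_j, ρ_i)` and `π` satisfy no polynomial relation of degree at most `d` (in
each variable) with coefficients in `K` of height at most `T ^ A`; and the value of such a polynomial at these numbers is larger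
than `T ^ (-R)` in absolute value. In particular no product of powers of these numbers `Γ(q_j) Γ(ρ_i) / Γ(q_j + ρ_i)` with
exponents at most `d` in absolute value, not all zero, is a power of `π` with exponent at most `d` times a number in `K` of
height at most `T ^ A`.

The same holds for complex points `z` with positive real parts and number fields in `ℂ`, outside of a set of dimension at most
`2 (n - 1)`.

The input are the algebraic independence of the functions `B(x, ρ_i)` (helper818), the determinant method with values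
(`Y771.KF`), and the theorem of helper264 on near points.
-/

set_option autoImplicit false

open Set Height

namespace Pool.Agent.Results.MP_c2409d_nt.GammaNearPoints

/-- The numbers `B x.1 x.2` and `c` satisfy a relation: there is a nonzero polynomial `P` over `K` of degree at most `d` in each
variable with coefficients of height at most `T ^ A` whose value at the numbers `B x` and `c` is at most `T ^ (-R)` in
absolute value. -/
def SmallRelation {𝕜 : Type} [RCLike 𝕜] (K : IntermediateField ℚ 𝕜) [NumberField K] {m n : ℕ} (B : Fin n → Fin m → 𝕜) (c : 𝕜)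
    (d : ℕ) (A R T : ℝ) : Prop :=
  ∃ P : MvPolynomial ((Fin n × Fin m) ⊕ Unit) K, P ≠ 0 ∧ (∀ i, P.degreeOf i ≤ d) ∧
    (∀ s, mulHeight₁ (P.coeff s) ≤ T ^ A) ∧
    ‖MvPolynomial.eval₂ (algebraMap K 𝕜) (Sum.elim (fun x => B x.1 x.2) (fun _ => c)) P‖ ≤ T ^ (-R)

theorem ind_real {m : ℕ} (ρ : Fin m → ℝ) (hρ : ∀ i, 0 < ρ i) (h1 : ∀ i, ∀ z : ℤ, ρ i ≠ z)
    (h2 : ∀ i k, i ≠ k → ∀ z : ℤ, ρ i - ρ k ≠ z) :
    Pool.Agent.Y771.KF.AIndepS (fun i => Pool.Agent.TH818.AP.Bt (ρ i)) (Ioi (0 : ℝ)) := by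
  intro P hP
  refine Pool.Agent.Y771.RP.mv_of_exp (fun i t => Pool.Agent.TH818.AP.Bt (ρ i) t) (Icc 1 2) (fun d p hp => ?_) P ?_
  · exact Pool.Agent.TH818.AP.beta m d ρ 1 2 hρ h1 h2 one_pos one_lt_two p hp
  · intro t ht
    exact hP t (lt_of_lt_of_le one_pos ht.1)

theorem ind_complex {m : ℕ} (ρ : Fin m → ℝ) (hρ : ∀ i, 0 < ρ i) (h1 : ∀ i, ∀ z : ℤ, ρ i ≠ z)
    (h2 : ∀ i k, i ≠ k → ∀ z : ℤ, ρ i - ρ k ≠ z) :
    Pool.Agent.Y771.KF.AIndepS (fun i => Pool.Agent.Y771.RP.fB (ρ i)) {t : ℂ | 0 < t.re} := by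
  intro P hP
  refine Pool.Agent.Y771.RP.ind_of_real (fun i => Pool.Agent.Y771.RP.fB (ρ i))
    (fun i t => Pool.Agent.TH818.AP.Bt (ρ i) t) (Icc 1 2) ?_ ?_ P ?_
  · intro y t ht
    exact Pool.Agent.Y771.RP.fB_real _ _
  · intro Q hQ
    refine Pool.Agent.Y771.RP.mv_of_exp (fun i t => Pool.Agent.TH818.AP.Bt (ρ i) t) (Icc 1 2) (fun d p hp => ?_) Q hQ
    exact Pool.Agent.TH818.AP.beta m d ρ 1 2 hρ h1 h2 one_pos one_lt_two p hp
  · intro t ht
    apply hP
    change 0 < ((t : ℝ) : ℂ).re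
    rw [Complex.ofReal_re]
    linarith [ht.1]

/-- **Theorem.** (1) real points; (2) complex points. `mulHeight₁` is the multiplicative height in `K`. -/
theorem result (m n : ℕ) (hn : 1 ≤ n) (ρ : Fin m → ℝ) (hρ : ∀ i, 0 < ρ i) (h1 : ∀ i, ∀ z : ℤ, ρ i ≠ z)
    (h2 : ∀ i k, i ≠ k → ∀ z : ℤ, ρ i - ρ k ≠ z) :
    (∃ E : Set (Fin n → ℝ), dimH E ≤ ((n - 1 : ℕ) : ENNReal) ∧ ∀ z ∉ E, (∀ j, 0 < z j) →
      ∀ (K : IntermediateField ℚ ℝ) [NumberField K] (d : ℕ) (A w : ℝ), 0 < w → ∃ R T₀ : ℝ, ∀ T : ℝ, T₀ ≤ T →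
        ∀ q : Fin n → K, (∀ j, mulHeight₁ (q j) ≤ T ∧ |(q j : ℝ) - z j| ≤ T ^ (-w)) →
          ¬ SmallRelation K (fun j i => Real.Gamma (q j) * Real.Gamma (ρ i) / Real.Gamma (q j + ρ i)) Real.pi
            d A R T) ∧
    (∃ E : Set (Fin n → ℂ), dimH E ≤ ((2 * (n - 1) : ℕ) : ENNReal) ∧ ∀ z ∉ E, (∀ j, 0 < (z j).re) →
      ∀ (K : IntermediateField ℚ ℂ) [NumberField K] (d : ℕ) (A w : ℝ), 0 < w → ∃ R T₀ : ℝ, ∀ T : ℝ, T₀ ≤ T →
        ∀ q : Fin n → K, (∀ j, mulHeight₁ (q j) ≤ T ∧ ‖(q j : ℂ) - z j‖ ≤ T ^ (-w)) →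
          ¬ SmallRelation K (fun j i => Complex.Gamma (q j) * Complex.Gamma (ρ i) / Complex.Gamma (q j + ρ i)) Real.pi
            d A R T) := by
  haveI : Nonempty (Fin n) := ⟨⟨0, hn⟩⟩
  refine ⟨?_, ?_⟩
  · obtain ⟨E, hE, hE2⟩ := Pool.Agent.Helper264.NT.mainK (𝕜 := ℝ) (X := Fin n) Complex.ofRealHom
      (fun a => (Complex.norm_real a).symm) (Y₀ := Fin m) (Yc := Unit)
      (fun _ i => Pool.Agent.TH818.AP.Bt (ρ i)) (fun _ => Real.pi) (fun _ => Ioi 0) (fun _ => isOpen_Ioi)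
      (fun _ => isPreconnected_Ioi) (fun _ i t ht => Pool.Agent.TH818.AP.betaAn (ρ i) t (hρ i) ht)
      (fun _ => ind_real ρ hρ h1 h2) Pool.Agent.Y124.goodXi_pi
    refine ⟨E, ?_, fun z hz hz0 K hK d A w hw => ?_⟩
    · refine hE.trans (le_of_eq ?_)
      rw [Module.finrank_self, one_mul, Fintype.card_fin]
    · obtain ⟨R, T₀, h⟩ := hE2 z hz hz0 K d A w hw
      refine ⟨R, T₀, fun T hT q hq hrel => h T hT q (fun j => ⟨(hq j).1, ?_⟩) ?_⟩
      · rw [Real.norm_eq_abs]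
        exact (hq j).2
      · obtain ⟨P, g1, g2, g3, g4⟩ := hrel
        exact ⟨P, g1, g2, g3, g4⟩
  · obtain ⟨E, hE, hE2⟩ := Pool.Agent.Helper264.NT.mainK (𝕜 := ℂ) (X := Fin n) (RingHom.id ℂ)
      (fun a => rfl) (Y₀ := Fin m) (Yc := Unit)
      (fun _ i => Pool.Agent.Y771.RP.fB (ρ i)) (fun _ => Real.pi) (fun _ => {t : ℂ | 0 < t.re})
      (fun _ => isOpen_lt continuous_const Complex.continuous_re)
      (fun _ => (convex_halfSpace_re_gt 0).isPreconnected) (fun _ i t ht => Pool.Agent.Y771.RP.fB_an (hρ i) ht)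
      (fun _ => ind_complex ρ hρ h1 h2) Pool.Agent.Y124.goodXi_pi
    refine ⟨E, ?_, fun z hz hz0 K hK d A w hw => ?_⟩
    · refine hE.trans (le_of_eq ?_)
      rw [Fintype.card_fin]
      have : Module.finrank ℝ ℂ = 2 := Complex.finrank_real_complex
      rw [this]
    · obtain ⟨R, T₀, h⟩ := hE2 z hz hz0 K d A w hw
      refine ⟨R, T₀, fun T hT q hq hrel => h T hT q hq ?_⟩
      obtain ⟨P, g1, g2, g3, g4⟩ := hrel
      exact ⟨P, g1, g2, g3, g4⟩

end Pool.Agent.Results.MP_c2409d_nt.GammaNearPoints
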