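import Pool.Agent.Helper264.NT.NearR
import Pool.Agent.TH818.AP.Beta

/-!
# Beta values at all tuples near all points outside of a set of dimension `n - 1`

For positive real (for instance rational) numbers `ρ_1, …, ρ_m` such that no `ρ_i` and no `ρ_i - ρ_k` is an integer, and
`q_1, …, q_n` in a real number field, we consider all polynomial relations (in particular the multiplicative ones: a product
of powers of the numbers `Γ(q_j) Γ(ρ_i) / Γ(q_j + ρ_i)` is an algebraic multiple of a power of `π`) between the `n m + 1`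
numbers `π` and `B(q_j, ρ_i) = Γ(q_j) Γ(ρ_i) / Γ(q_j + ρ_i)`.

The starting file `FermatRelative` bounds the number of the exceptional tuples of rational numbers with denominators at most
`T` by `C T ^ ε |X| ^ (n - 1)`; it says nothing about the tuples near a given point. Here there are no exceptional tuples
near the points outside of a set of dimension `n - 1` (zero for `n = 1`).
-/

set_option autoImplicit false

open Height
open scoped ENNReal

namespace Pool.Agent.Results.MP_c2409d_nt.NearEveryPoint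

/-- The `n m + 1` numbers `π` and `Γ(q_j) Γ(ρ_i) / Γ(q_j + ρ_i)`. -/
noncomputable def values {n m : ℕ} (ρ : Fin m → ℝ) (q : Fin n → ℝ) (x : Option (Fin n × Fin m)) : ℝ :=
  match x with
  | none => Real.pi
  | some (j, i) => Real.Gamma (q j) * Real.Gamma (ρ i) / Real.Gamma (q j + ρ i)

/-- every nonzero polynomial in `n m + 1` variables with coefficients in `K` of height at most `T ^ A`, of degree at most
`d` in each variable, takes at the `n m + 1` numbers of the tuple `q` a value of absolute value greater than `T ^ (-B)` -/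
def NoRelation {n m : ℕ} (ρ : Fin m → ℝ) {K : IntermediateField ℚ ℝ} [NumberField K] (d : ℕ) (A B T : ℝ)
    (q : Fin n → K) : Prop :=
  ∀ P : MvPolynomial (Option (Fin n × Fin m)) K, P ≠ 0 → (∀ i, P.degreeOf i ≤ d) →
    (∀ s, mulHeight₁ (P.coeff s) ≤ T ^ A) →
      T ^ (-B) < |MvPolynomial.eval₂ (algebraMap K ℝ) (values ρ fun j => (q j : ℝ)) P|

/-- fixed `ρ` -/
theorem one (n : ℕ) (hn : 1 ≤ n) (m : ℕ) (ρ : Fin m → ℝ) (hρ : ∀ i, 0 < ρ i) (h1 : ∀ i, ∀ z : ℤ, ρ i ≠ z)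
    (h2 : ∀ i k, i ≠ k → ∀ z : ℤ, ρ i - ρ k ≠ z) :
    ∃ E : Set (Fin n → ℝ), dimH E ≤ ((n - 1 : ℕ) : ℝ≥0∞) ∧ ∀ y ∉ E, (∀ j, 0 < y j) →
      ∀ (K : IntermediateField ℚ ℝ) [NumberField K] (d : ℕ) (A v : ℝ), 0 < v → ∃ B T₀ : ℝ, ∀ T ≥ T₀,
        ∀ q : Fin n → K, (∀ j, mulHeight₁ (q j) ≤ T ∧ |(q j : ℝ) - y j| ≤ T ^ (-v)) → NoRelation ρ d A B T q := by
  have hnn : Nonempty (Fin n) := ⟨⟨0, hn⟩⟩
  obtain ⟨E, hE1, hE2⟩ := Pool.Agent.Helper264.NT.mainR (X := Fin n) (κ := Fin m) (fun _ i => TH818.AP.Bt (ρ i))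
    (fun _ => Set.Ioi (0 : ℝ)) (fun _ => isOpen_Ioi) (fun _ => isPreconnected_Ioi)
    (fun _ i t ht => TH818.AP.betaAn (ρ i) t (hρ i) ht)
    (fun _ => Pool.Agent.Helper264.NT.aindepS_of_rindep _ 1 2
      (fun d => TH818.AP.beta m d ρ 1 2 hρ h1 h2 (by norm_num) (by norm_num)) _ fun t ht => by
        have := ht.1
        show (0 : ℝ) < t
        linarith)
  refine ⟨E, by simpa using hE1, fun y hy hy0 K _ d A v hv => ?_⟩
  obtain ⟨B, T0, h⟩ := hE2 y hy hy0 K d A v hv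
  refine ⟨B, T0, fun T hT q hq P hP hd hc => ?_⟩
  have h1 := (h T hT q hq).2 P hP hd hc
  have h2 : (fun o : Option (Fin n × Fin m) => o.elim Real.pi fun c => TH818.AP.Bt (ρ c.2) (q c.1 : ℝ)) =
      values ρ fun j => (q j : ℝ) := by
    funext o
    cases o <;> rfl
  rw [← h2]
  exact h1

/-- Let `n ≥ 1` and let `R` be a countable set of positive real numbers (for instance the positive rational or real
algebraic numbers). There is a subset `E` of `ℝ ^ n` of Hausdorff dimension at most `n - 1` such that for all `y` in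
`(0, ∞) ^ n` outside of `E`, all `m` and all `ρ_1, …, ρ_m` in `R` such that no `ρ_i` and no `ρ_i - ρ_k`, `i ≠ k`, is an
integer, all real number fields `K`, all `d`, `A` and `v > 0` there are `B` and `T₀` such that for all `T ≥ T₀` all
`n`-tuples `q` of elements of `K` of height at most `T` with `|q_j - y_j| ≤ T ^ (-v)` have no relation. -/
theorem result (n : ℕ) (hn : 1 ≤ n) (R : Set ℝ) (hR : R.Countable) (hR0 : ∀ x ∈ R, 0 < x) :
    ∃ E : Set (Fin n → ℝ), dimH E ≤ ((n - 1 : ℕ) : ℝ≥0∞) ∧ ∀ y ∉ E, (∀ j, 0 < y j) →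
      ∀ (m : ℕ) (ρ : Fin m → ℝ), (∀ i, ρ i ∈ R) → (∀ i, ∀ z : ℤ, ρ i ≠ z) →
      (∀ i k, i ≠ k → ∀ z : ℤ, ρ i - ρ k ≠ z) →
      ∀ (K : IntermediateField ℚ ℝ) [NumberField K] (d : ℕ) (A v : ℝ), 0 < v → ∃ B T₀ : ℝ, ∀ T ≥ T₀,
        ∀ q : Fin n → K, (∀ j, mulHeight₁ (q j) ≤ T ∧ |(q j : ℝ) - y j| ≤ T ^ (-v)) → NoRelation ρ d A B T q := by
  classical
  have hRc : Countable R := hR.to_subtype
  have hall : ∀ x : (Σ m : ℕ, Fin m → R), ∃ E : Set (Fin n → ℝ), dimH E ≤ ((n - 1 : ℕ) : ℝ≥0∞) ∧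
      ((∀ i, ∀ z : ℤ, (x.2 i : ℝ) ≠ z) → (∀ i k, i ≠ k → ∀ z : ℤ, (x.2 i : ℝ) - x.2 k ≠ z) →
      ∀ y ∉ E, (∀ j, 0 < y j) → ∀ (K : IntermediateField ℚ ℝ) [NumberField K] (d : ℕ) (A v : ℝ), 0 < v →
        ∃ B T₀ : ℝ, ∀ T ≥ T₀, ∀ q : Fin n → K,
        (∀ j, mulHeight₁ (q j) ≤ T ∧ |(q j : ℝ) - y j| ≤ T ^ (-v)) → NoRelation (fun i => (x.2 i : ℝ)) d A B T q) := by
    intro x
    by_cases hx : (∀ i, ∀ z : ℤ, (x.2 i : ℝ) ≠ z) ∧ (∀ i k, i ≠ k → ∀ z : ℤ, (x.2 i : ℝ) - x.2 k ≠ z)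
    · obtain ⟨E, hE1, hE2⟩ := one n hn x.1 (fun i => (x.2 i : ℝ)) (fun i => hR0 _ (x.2 i).2) hx.1 hx.2
      exact ⟨E, hE1, fun _ _ => hE2⟩
    · refine ⟨∅, by simp, fun h1 h2 => absurd ⟨h1, h2⟩ hx⟩
  choose E hE1 hE2 using hall
  refine ⟨⋃ x, E x, ?_, fun y hy hy0 m ρ hρ h1 h2 K _ d A v hv => ?_⟩
  · rw [dimH_iUnion]
    exact iSup_le hE1
  · exact hE2 ⟨m, fun i => ⟨ρ i, hρ i⟩⟩ h1 h2 y (fun h => hy (Set.mem_iUnion.2 ⟨_, h⟩)) hy0 K d A v hv

end Pool.Agent.Results.MP_c2409d_nt.NearEveryPoint
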