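import Mathlib
import Pool.Agent.V11118.ZR.Refl

/-!
# Finite-state prediction of products of gamma values and of the reflected products

Let `a_1, …, a_r` be rational numbers which are not integers, `g = Γ(a_1) ⋯ Γ(a_r)` and
`g' = Γ(1 - a_1) ⋯ Γ(1 - a_r)`. A machine with finitely many states reads the digits of a number in some
base one after the other and announces before each digit a guess, which depends on its state only.
If `p, q` are rational numbers with `p + q + r ≠ 0`, then `g π^p` and `g' π^q` cannot both be predicted with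
few errors, at any scale, not even after an application of nonconstant polynomials of bounded degree and
moderate height. If one of these numbers is algebraic, then a nonconstant polynomial vanishes there, and its
value is predicted without errors.
-/

set_option autoImplicit false

namespace Pool.Agent.Results.MP_c2409d_nt.ReflectedProducts

open Finset Pool.Agent Polynomial

/-- `Γ(a_1) ⋯ Γ(a_r)` -/
noncomputable def g {r : ℕ} (a : Fin r → ℚ) : ℝ := ∏ i, Real.Gamma (a i)

/-- `Γ(1 - a_1) ⋯ Γ(1 - a_r)` -/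
noncomputable def g' {r : ℕ} (a : Fin r → ℚ) : ℝ := ∏ i, Real.Gamma (1 - a i)

/-- the `i`-th digit of `x` after the point in base `b` -/
noncomputable def digit (b : ℕ) (x : ℝ) (i : ℕ) : ℤ := ⌊x * (b : ℝ) ^ i⌋ % (b : ℤ)

/-- A machine with the set of states `Q`: the transition function, the guess announced in each
state, and the initial state. -/
structure Machine (Q : Type) where
  next : Q → ℤ → Q
  guess : Q → ℤ
  start : Q

/-- The state of the machine after it has read the first `i` digits of `x` in base `b`. -/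
noncomputable def Machine.state {Q : Type} (M : Machine Q) (b : ℕ) (x : ℝ) : ℕ → Q
  | 0 => M.start
  | i + 1 => M.next (M.state b x i) (digit b x (i + 1))

/-- The number of the wrong guesses for the first `n` digits of `x` in base `b`: the guess for the
digit number `i + 1` is announced when the machine has read the first `i` digits. -/
noncomputable def Machine.errors {Q : Type} (M : Machine Q) (b : ℕ) (x : ℝ) (n : ℕ) : ℕ :=
  ((range n).filter (fun i => M.guess (M.state b x i) ≠ digit b x (i + 1))).card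

theorem state_eq {Q : Type} (M : Machine Q) (b : ℕ) (x : ℝ) (i : ℕ) :
    M.state b x i = V60.FSP.st M.next (V60.FSP.dg b x) M.start 0 i := by
  induction i with
  | zero => rfl
  | succ i ih =>
    rw [V60.FSP.st_step, ← ih, Nat.zero_add]
    rfl

theorem errors_eq {Q : Type} [Fintype Q] (M : Machine Q) (b : ℕ) (x : ℝ) (n : ℕ) :
    M.errors b x n = V60.FSP.err M.next M.guess (V60.FSP.dg b x) M.start 0 n := by
  unfold Machine.errors V60.FSP.err
  congr 1
  apply Finset.filter_congr
  intro i _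
  rw [state_eq, Nat.zero_add]
  rfl

/-- `P` is a nonconstant integer polynomial of degree at most `D` with coefficients of absolute value at
most `H`, and `1 ≤ d ≤ H` -/
def Admissible (D : ℕ) (H : ℝ) (P : ℤ[X]) (d : ℕ) : Prop :=
  0 < P.natDegree ∧ P.natDegree ≤ D ∧ (∀ i, |(P.coeff i : ℝ)| ≤ H) ∧ 1 ≤ d ∧ (d : ℝ) ≤ H

/-- The bound for the errors: if machines with `S` and `S'` states read the digits of `P(v) / d` in base
`b` and of `P'(w) / d'` in base `b'` (`P, P'` of degree at most `D` and height at most `H`), then they make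
on the first `N` and `N'` digits together at least
`(log min(N log b, N' log b') - log (S log b + S' log b' + log H)) / log μ - C` wrong guesses. -/
def Bound (D : ℕ) (μ C v w : ℝ) : Prop :=
  ∀ (P P' : ℤ[X]) (d d' : ℕ) (H : ℝ), 1 ≤ H → Admissible D H P d → Admissible D H P' d' →
    ∀ b b' : ℕ, 2 ≤ b → 2 ≤ b' →
    ∀ (Q Q' : Type) [Fintype Q] [Fintype Q'] (M : Machine Q) (M' : Machine Q') (N N' : ℕ),
    1 ≤ N → 1 ≤ N' →
    (Real.log (min (N * Real.log b) (N' * Real.log b')) -
      Real.log (Fintype.card Q * Real.log b + Fintype.card Q' * Real.log b' + Real.log H)) /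
      Real.log μ - C ≤ (M.errors b (aeval v P / d) N + M'.errors b' (aeval w P' / d') N' : ℝ)

/-- For some nonconstant polynomial `P` of degree at most `D` and height at most `H` and some `d ≤ H`, in
some base `b`, some machine with `S` states, `S log b ≤ σ`, makes less than `E` errors on the
first `N` digits of `P(v) / d` for some `N` with `N log b ≥ Λ`. -/
def Predicted (D : ℕ) (H Λ σ E v : ℝ) : Prop :=
  ∃ (P : ℤ[X]) (d b : ℕ) (Q : Type) (_ : Fintype Q) (M : Machine Q) (N : ℕ), Admissible D H P d ∧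
    2 ≤ b ∧ Λ ≤ N * Real.log b ∧ Fintype.card Q * Real.log b ≤ σ ∧
    (M.errors b (aeval v P / d) N : ℝ) < E

/-- the threshold -/
noncomputable def threshold (μ C H Λ σ : ℝ) : ℝ :=
  ((Real.log Λ - Real.log (2 * σ + Real.log H)) / Real.log μ - C) / 2

theorem bound_of_joint (n : ℕ) (κ c V : ℝ) (hκ : 0 < κ) (hc : 0 < c) (hV : 1 ≤ V) : ∃ C : ℝ,
    ∀ v w : ℝ, |v| ≤ V → |w| ≤ V → V11015.FS.JointAlg n κ c v w → Bound n (2 * (κ + 1)) C v w := by
  obtain ⟨C, _, h⟩ := V11015.FS.poly_bound n κ c V hκ hc hV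
  refine ⟨C, fun v w hv hw hJ P P' d d' H hH hP hP' b b' hb hb' Q Q' _ _ M M' N N' hN hN' => ?_⟩
  rw [errors_eq, errors_eq]
  exact h v w hv hw hJ P P' H hH hP.1 hP.2.1 hP'.1 hP'.2.1 hP.2.2.1 hP'.2.2.1 d d' hP.2.2.2.1
    hP'.2.2.2.1 hP.2.2.2.2 hP'.2.2.2.2 b b' hb hb' Q Q' M.next M.guess M.start M'.next M'.guess M'.start
    N N' hN hN'

theorem not_both {n : ℕ} {μ C v w : ℝ} (hμ : 1 < μ) (h : Bound n μ C v w) {H Λ σ : ℝ} (hH : 1 ≤ H)
    (hΛ : 0 < Λ) (hp : Predicted n H Λ σ (threshold μ C H Λ σ) v)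
    (hq : Predicted n H Λ σ (threshold μ C H Λ σ) w) : False := by
  obtain ⟨P, d, b, Q, inst, M, N, hP, hb, hN, hS, hM⟩ := hp
  obtain ⟨P', d', b', Q', inst', M', N', hP', hb', hN', hS', hM'⟩ := hq
  have hlb := V11015.FS.log_base_pos hb
  have hlb' := V11015.FS.log_base_pos hb'
  have hlμ := Real.log_pos hμ
  have hlH : 0 ≤ Real.log H := Real.log_nonneg hH
  have hN1 : 1 ≤ N := by
    rcases Nat.eq_zero_or_pos N with h | h
    · rw [h, Nat.cast_zero, zero_mul] at hN
      linarith
    · exact h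
  have hN1' : 1 ≤ N' := by
    rcases Nat.eq_zero_or_pos N' with h | h
    · rw [h, Nat.cast_zero, zero_mul] at hN'
      linarith
    · exact h
  have : Nonempty Q := ⟨M.start⟩
  have hSp : (0 : ℝ) < Fintype.card Q := by exact_mod_cast Fintype.card_pos (α := Q)
  have hSp' : (0 : ℝ) ≤ Fintype.card Q' := Nat.cast_nonneg _
  have h1 := h P P' d d' H hH hP hP' b b' hb hb' Q Q' M M' N N' hN1 hN1'
  have h2 : Real.log Λ ≤ Real.log (min (N * Real.log b) (N' * Real.log b')) :=
    Real.log_le_log hΛ (le_min hN hN')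
  have h3 : Real.log (Fintype.card Q * Real.log b + Fintype.card Q' * Real.log b' + Real.log H) ≤
      Real.log (2 * σ + Real.log H) := by
    apply Real.log_le_log
    · have := mul_nonneg hSp' hlb'.le
      have := mul_pos hSp hlb
      linarith
    · linarith
  have h4 : (Real.log Λ - Real.log (2 * σ + Real.log H)) / Real.log μ ≤
      (Real.log (min (N * Real.log b) (N' * Real.log b')) -
      Real.log (Fintype.card Q * Real.log b + Fintype.card Q' * Real.log b' + Real.log H)) /
      Real.log μ := div_le_div_of_nonneg_right (by linarith) hlμ.le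
  unfold threshold at hM hM'
  linarith


lemma sin_ne {q : ℚ} (hq : ∀ z : ℤ, q ≠ z) : Real.sin (Real.pi * q) ≠ 0 := by
  intro h
  rw [Real.sin_eq_zero_iff] at h
  obtain ⟨n, hn⟩ := h
  apply hq n
  have h1 : (n : ℝ) = q := by
    have h2 : (n : ℝ) * Real.pi = q * Real.pi := by rw [hn]; ring
    exact mul_right_cancel₀ Real.pi_ne_zero h2
  have h3 : ((n : ℚ) : ℝ) = ((q : ℚ) : ℝ) := by push_cast; exact h1
  exact (Rat.cast_injective h3).symm

lemma prod_alg {r : ℕ} (a : Fin r → ℚ) (ha : ∀ i, ∀ z : ℤ, a i ≠ z) :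
    ∃ β : ℝ, IsAlgebraic ℚ β ∧ β ≠ 0 ∧ g a * g' a = β * Real.pi ^ r := by
  refine ⟨∏ i, (Real.sin (Real.pi * a i))⁻¹, ?_, ?_, ?_⟩
  · refine Finset.prod_induction _ (fun z : ℝ => IsAlgebraic ℚ z) (fun x y hx hy => hx.mul hy)
      isAlgebraic_one (fun i _ => ?_)
    have h1 : IsAlgebraic ℤ (Real.sin (a i * Real.pi)) := Real.isAlgebraic_sin_rat_mul_pi (a i)
    rw [mul_comm] at h1
    exact ((IsFractionRing.isAlgebraic_iff ℤ ℚ ℝ).1 h1).inv
  · exact Finset.prod_ne_zero_iff.2 fun i _ => inv_ne_zero (sin_ne (ha i))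
  · rw [g, g', ← Finset.prod_mul_distrib]
    have h1 : ∀ i ∈ (Finset.univ : Finset (Fin r)), Real.Gamma (a i) * Real.Gamma (1 - a i) =
        (Real.sin (Real.pi * a i))⁻¹ * Real.pi := by
      intro i _
      rw [Real.Gamma_mul_Gamma_one_sub, div_eq_inv_mul]
    rw [Finset.prod_congr rfl h1, Finset.prod_mul_distrib, Finset.prod_const, Finset.card_univ,
      Fintype.card_fin]

/-- **Finite-state prediction of products of gamma values and of the reflected products.** Let `a_1, …, a_r`
be rational numbers which are not integers, `g = Γ(a_1) ⋯ Γ(a_r)` and `g' = Γ(1 - a_1) ⋯ Γ(1 - a_r)`. For every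
`D` and every rational `s ≠ 0` there is `μ > 1` such that for all rational `p, q` with `p + q + r = s` there
is `C` such that the bound for the errors holds for the pair `g π^p`, `g' π^q`; hence at no scale
(`Λ`, `σ`, `H`) both numbers are predicted with less than
`((log Λ - log (2 σ + log H)) / log μ - C) / 2` errors. -/
theorem result (r : ℕ) (a : Fin r → ℚ) (ha : ∀ i, ∀ z : ℤ, a i ≠ z) (D : ℕ) (s : ℚ) (hs : s ≠ 0) :
    ∃ μ : ℝ, 1 < μ ∧ ∀ p q : ℚ, p + q + r = s → ∃ C : ℝ,
      Bound D μ C (g a * Real.pi ^ (p : ℝ)) (g' a * Real.pi ^ (q : ℝ)) ∧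
      ∀ Λ σ H : ℝ, 0 < Λ → 1 ≤ H →
        ¬ (Predicted D H Λ σ (threshold μ C H Λ σ) (g a * Real.pi ^ (p : ℝ)) ∧
          Predicted D H Λ σ (threshold μ C H Λ σ) (g' a * Real.pi ^ (q : ℝ))) := by
  obtain ⟨β, hβ, hβ0, hprod⟩ := prod_alg a ha
  obtain ⟨κ, hκ, h⟩ := V11118.ZR.joint_prod D β hβ hβ0 s hs
  refine ⟨2 * (κ + 1), by linarith, fun p q hpq => ?_⟩
  obtain ⟨c, hc, hJ⟩ := h (g a * Real.pi ^ (p : ℝ)) (g' a * Real.pi ^ (q : ℝ)) (by
    have e1 : (s : ℝ) = p + q + r := by rw [← hpq]; push_cast; ring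
    rw [e1, Real.rpow_add Real.pi_pos, Real.rpow_add Real.pi_pos, Real.rpow_natCast]
    calc g a * Real.pi ^ (p : ℝ) * (g' a * Real.pi ^ (q : ℝ)) =
          (g a * g' a) * (Real.pi ^ (p : ℝ) * Real.pi ^ (q : ℝ)) := by ring
      _ = _ := by rw [hprod]; ring)
  obtain ⟨C, hC⟩ := bound_of_joint D κ c (1 + |g a * Real.pi ^ (p : ℝ)| +
    |g' a * Real.pi ^ (q : ℝ)|) hκ hc
    (by have h1 := abs_nonneg (g a * Real.pi ^ (p : ℝ))
        have h2 := abs_nonneg (g' a * Real.pi ^ (q : ℝ))
        linarith)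
  have h1 := abs_nonneg (g a * Real.pi ^ (p : ℝ))
  have h2 := abs_nonneg (g' a * Real.pi ^ (q : ℝ))
  have hB := hC _ _ (by linarith) (by linarith) hJ
  exact ⟨C, hB, fun Λ σ H hΛ hH hcon => not_both (by linarith) hB hH hΛ hcon.1 hcon.2⟩

end Pool.Agent.Results.MP_c2409d_nt.ReflectedProducts
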